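import Pool.Agent.H45.NF.DW

/-!
# PA. Definability from a set and ordinals
-/

open Ordinal Cardinal Order Set
open scoped ZFSet

universe u

namespace Pool.Agent.H45.NF

open _root_.HD HD.NF

theorem ODp.def {p x : ZFSet.{u}} (h : ODp p x) : ∃ Q : (ℕ → ZFSet.{u}) → Prop, DZ Q ∧
    ∀ y, Q (cons y fun _ => p) ↔ y = x := by
  obtain ⟨α, φ, q, h1, h2, h3, h4⟩ := h
  obtain ⟨ψ, hψ⟩ := (loc_defBy.{u} φ).dv
  refine ⟨fun v => DefBy φ (cons (v 0) (cons α.toZFSet (cons (v 1) fun n => (q n).toZFSet))),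
    ⟨ψ.ren (fun n => if n = 0 then 0 else if n = 1 then 1 else if n = 2 then 2 else
      2 * (n - 2) + 1), cns α q, fun v => ?_⟩, fun y => ?_⟩
  · show DefBy φ (cons (v 0) (cons α.toZFSet (cons (v 1) fun n => (q n).toZFSet))) ↔ _
    rw [sat_ren, hψ]
    have : mz v (cns α q) ∘ (fun n => if n = 0 then 0 else if n = 1 then 1 else
        if n = 2 then 2 else 2 * (n - 2) + 1) =
        cons (v 0) (cons α.toZFSet (cons (v 1) fun n => (q n).toZFSet)) := by
      funext n
      rcases n with _ | _ | _ | n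
      · show mz v _ (2 * 0) = _
        rw [mz_even]
        rfl
      · show mz v _ (2 * 0 + 1) = _
        rw [mz_odd]
        rfl
      · show mz v _ (2 * 1) = _
        rw [mz_even]
        rfl
      · show mz v _ (2 * (n + 1) + 1) = _
        rw [mz_odd]
        rfl
    rw [this]
  · show DefBy φ (cons y (cons α.toZFSet (cons p fun n => (q n).toZFSet))) ↔ y = x
    have e1 : cons y (cons α.toZFSet (cons p fun n => (q n).toZFSet)) 1 = α.toZFSet := rfl
    have e2 : (fun n => cons y (cons α.toZFSet (cons p fun n => (q n).toZFSet)) (n + 2)) =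
        cons p fun n => (q n).toZFSet := rfl
    unfold DefBy
    rw [e1, e2]
    simp only [rank_toZFSet, cons_zero]
    constructor
    · rintro ⟨-, h5, h6⟩
      exact ((h6 x h3).1 ((h4 x h3).2 rfl)).symm
    · rintro rfl
      exact ⟨ZFSet.isOrdinal_toZFSet _, h3, h4⟩

theorem ODp.of_dz {p x : ZFSet.{u}} {Q : (ℕ → ZFSet.{u}) → Prop} (hQ : DZ Q)
    (h : ∀ y, Q (cons y fun _ => p) ↔ y = x) : ODp p x := by
  obtain ⟨φ, s, hφ⟩ := hQ
  obtain ⟨β, hβ⟩ := seq_bdd (cons x (cons p fun n => (s n).toZFSet))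
  obtain ⟨η, hη, h1, h2⟩ := elm_exists β
  have hs : ∀ n, s n < η := fun n => by
    have := hβ (n + 2)
    rw [cons_succ, cons_succ, rank_toZFSet] at this
    exact this.trans hη
  have hpη : p ∈ V_ η := by
    rw [ZFSet.mem_vonNeumann]
    exact (hβ 1).trans hη
  have hxη : x ∈ V_ η := by
    rw [ZFSet.mem_vonNeumann]
    exact (hβ 0).trans hη
  refine ⟨η, φ.ren (fun n => if n = 0 then 0 else if n % 2 = 0 then 1 else n / 2 + 2), s, hs, hpη,
    hxη, fun y hy => ?_⟩
  rw [sat_ren, h2 _ _ ?_]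
  · have e : (cons y (cons p fun n => (s n).toZFSet)) ∘
        (fun n => if n = 0 then 0 else if n % 2 = 0 then 1 else n / 2 + 2) =
        mz (cons y fun _ => p) s := by
      funext n
      rcases Nat.even_or_odd' n with ⟨k, rfl | rfl⟩
      · rw [mz_even]
        rcases k with _ | k
        · simp
        · have : ¬ 2 * (k + 1) = 0 := by omega
          have h2 : 2 * (k + 1) % 2 = 0 := by omega
          simp [this, h2]
      · rw [mz_odd]
        have : ¬ 2 * k + 1 = 0 := by omega
        have h2 : (2 * k + 1) % 2 = 1 := by omega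
        have h3 : (2 * k + 1) / 2 = k := by omega
        simp [h2, h3]
    rw [e, ← hφ]
    exact h y
  · intro n
    rw [Function.comp_apply]
    have : ∀ m, (cons y (cons p fun n => (s n).toZFSet)) m ∈ V_ η := by
      rintro (_ | _ | m)
      · exact hy
      · exact hpη
      · exact Gd.ord.2 (hs m)
    exact this _

theorem pf_pa : T_PA.{u} := by
  intro p x
  constructor
  · intro h
    obtain ⟨Q, hQ, h⟩ := ODp.def h
    refine ⟨ZFSet.sep (fun w => ∃ p' z, w = ZFSet.pair p' z ∧ ∀ y, Q (cons y fun _ => p') ↔ y = z)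
      (V_ ((ZFSet.pair p x).rank + 1)), od_sep (od_V _) ?_, fun z => ?_⟩
    · refine DZ.ex (R := fun p' v => ∃ z, v 0 = ZFSet.pair p' z ∧
        ∀ y, Q (cons y fun _ => p') ↔ y = z) (DZ.ex ((loc_pair 2 1 0).dz.and (DZ.all
          (DZ.iff ?_ (DZ.eq 0 1)))))
      refine (hQ.ren fun n => if n = 0 then 0 else 2).congr fun v => ?_
      have : (cons (v 0) fun _ => v 2) = fun n => v (if n = 0 then 0 else 2) := by
        funext n
        rcases n with _ | n <;> simp
      rw [← this]
    · rw [ZFSet.mem_sep]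
      constructor
      · rintro ⟨-, p', z', he, h5⟩
        obtain ⟨rfl, rfl⟩ := ZFSet.pair_injective he
        exact ((h5 x).1 ((h x).2 rfl)).symm
      · rintro rfl
        refine ⟨?_, p, z, rfl, h⟩
        rw [ZFSet.mem_vonNeumann]
        exact lt_add_one _
  · rintro ⟨R, hR, h⟩
    refine ODp.of_dz (Q := fun v => ZFSet.pair (v 1) (v 0) ∈ R) ?_ fun y => h y
    exact DZ.od (R := fun r v => ZFSet.pair (v 1) (v 0) ∈ r) hR (loc_pmem 2 1 0).dz

end Pool.Agent.H45.NF
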