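import Pool.Agent.H45.NF.SD

/-!
# DW. Definability of the minimal elements
-/

open Ordinal Cardinal Order Set
open scoped ZFSet

universe u

namespace Pool.Agent.H45.NF

open _root_.HD HD.NF

variable {en : Ordinal.{u} → ZFSet.{u}}

theorem mem_rst {f z : ZFSet.{u}} {ξ : Ordinal.{u}} :
    z ∈ rst f ξ ↔ z ∈ f ∧ ∃ a < ξ, ∃ y, z = ZFSet.pair a.toZFSet y := by
  unfold rst
  rw [ZFSet.mem_sep]

theorem dz_Bl (h : EN en) (μ : Cardinal.{u}) (i : ℕ) : DZ.{u} fun v => Bl μ (v i) :=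
  DZ.ex (R := fun Z v => OD Z ∧ Sz μ Z ∧ v i ∈ Z)
    ((h.dzOD 0).and ((dz_Sz μ 0).and (DZ.mem (i + 1) 0)))

theorem rst_iff {f s : ZFSet.{u}} {γ : Ordinal.{u}} : s = rst f γ ↔
    ∀ z, z ∈ s ↔ z ∈ f ∧ ∃ a ∈ γ.toZFSet, ∃ y, z = ZFSet.pair a y := by
  have key : ∀ z, z ∈ rst f γ ↔ z ∈ f ∧ ∃ a ∈ γ.toZFSet, ∃ y, z = ZFSet.pair a y := by
    intro z
    rw [mem_rst]
    refine and_congr_right fun _ => ?_
    constructor
    · rintro ⟨a, ha, y, h⟩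
      exact ⟨_, toZFSet_mem_toZFSet_iff.2 ha, y, h⟩
    · rintro ⟨a, ha, y, h⟩
      obtain ⟨a, ha', rfl⟩ := mem_toZFSet_iff.1 ha
      exact ⟨a, ha', y, h⟩
  constructor
  · rintro rfl
    exact key
  · intro h
    ext z
    rw [h, key]

/-- the restriction is definable -/
theorem dz_rst (i j k : ℕ) : DZ.{u} fun v => (v j).IsOrdinal ∧ v k = rst (v i) (v j).rank := by
  refine DZ.congr (P := fun v => (v j).IsOrdinal ∧ ∀ z, z ∈ v k ↔ z ∈ v i ∧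
    ∃ a ∈ v j, ∃ y, z = ZFSet.pair a y) ?_ fun v => ?_
  · exact (DZ.ord j).and (DZ.all ((DZ.mem 0 (k + 1)).iff ((DZ.mem 0 (i + 1)).and
      (DZ.exMem (j + 1) (DZ.ex (loc_pair 2 1 0).dz)))))
  · refine and_congr_right fun h => ?_
    obtain ⟨a, ha⟩ := ord_of h
    rw [ha, rank_toZFSet, rst_iff]

/-- substitution of a restriction -/
theorem dz_rst' {R : ZFSet.{u} → (ℕ → ZFSet.{u}) → Prop} (i j : ℕ)
    (hR : DZ fun v => R (v 0) (fun n => v (n + 1))) :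
    DZ fun v => (v j).IsOrdinal ∧ R (rst (v i) (v j).rank) v := by
  refine (DZ.ex (R := fun x v => ((v j).IsOrdinal ∧ x = rst (v i) (v j).rank) ∧ R x v)
    (DZ.and (dz_rst (i + 1) (j + 1) 0) hR)).congr fun v => ?_
  constructor
  · rintro ⟨h1, h2⟩
    exact ⟨_, ⟨h1, rfl⟩, h2⟩
  · rintro ⟨x, ⟨h1, rfl⟩, h2⟩
    exact ⟨h1, h2⟩

theorem dz_LB (h : EN en) (μ : Cardinal.{u}) (α : Ordinal.{u}) (i : ℕ) :
    DZ.{u} fun v => LB μ α (v i) := by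
  refine DZ.congr (P := fun v => (∀ z ∈ v i, ∃ a ∈ α.toZFSet, ∃ y, z = ZFSet.pair a y) ∧
    ∀ ξ ∈ α.toZFSet, (ξ.IsOrdinal ∧ Bl μ (rst (v i) ξ.rank))) ?_ fun v => ?_
  · refine DZ.and (DZ.allMem i ?_) ?_
    · exact DZ.od (R := fun b v => ∃ a ∈ b, ∃ y, v 0 = ZFSet.pair a y) (OD.ordinal α)
        (DZ.exMem 0 (DZ.ex (loc_pair 3 1 0).dz))
    · exact DZ.od (R := fun b v => ∀ ξ ∈ b, (ξ.IsOrdinal ∧ Bl μ (rst (v i) ξ.rank)))
        (OD.ordinal α) (DZ.allMem 0 (dz_rst' (R := fun x _ => Bl μ x) (i + 2) 0 (dz_Bl h μ 0)))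
  · refine and_congr (forall_congr' fun z => forall_congr' fun _ => ?_) ?_
    · constructor
      · rintro ⟨a, ha, y, h⟩
        exact ⟨_, toZFSet_mem_toZFSet_iff.2 ha, y, h⟩
      · rintro ⟨a, ha, y, h⟩
        obtain ⟨a, ha', rfl⟩ := mem_toZFSet_iff.1 ha
        exact ⟨a, ha', y, h⟩
    · constructor
      · intro h ξ hξ
        obtain ⟨ξ, hξ', rfl⟩ := mem_toZFSet_iff.1 hξ
        exact ⟨ZFSet.isOrdinal_toZFSet _, by rw [rank_toZFSet]; exact h ξ hξ'⟩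
      · intro h ξ hξ
        have := (h _ (toZFSet_mem_toZFSet_iff.2 hξ)).2
        rwa [rank_toZFSet] at this

theorem dz_cd (h : EN en) (μ : Cardinal.{u}) (i j k : ℕ) : DZ.{u} fun v =>
    (v j).IsOrdinal ∧ (v k).IsOrdinal ∧ (v k).rank = cd en μ (v i) (v j).rank := by
  have h0 : DZ.{u} fun v => (v 0).IsOrdinal ∧ (Sz μ (en (v 0).rank) ∧
      ((v 2).IsOrdinal ∧ rst (v 1) (v 2).rank ∈ en (v 0).rank)) :=
    dz_en' h (R := fun z v => Sz μ z ∧ ((v 2).IsOrdinal ∧ rst (v 1) (v 2).rank ∈ z)) 0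
      ((dz_Sz μ 0).and (dz_rst' (R := fun x v => x ∈ v 0) 2 3 (DZ.mem 0 1)))
  have h1 := dz_sInf (S := fun c v => c.IsOrdinal ∧ (Sz μ (en c.rank) ∧
      ((v 1).IsOrdinal ∧ rst (v 0) (v 1).rank ∈ en c.rank))) h0
  refine ((DZ.ord j).and (h1.ren fun n => if n = 0 then k else if n = 1 then i else j)).congr
    fun v => ?_
  refine and_congr_right fun hj => ?_
  show _ ↔ (v k).IsOrdinal ∧ (v k).rank = sInf {c : Ordinal.{u} | c.toZFSet.IsOrdinal ∧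
    (Sz μ (en c.toZFSet.rank) ∧ ((v j).IsOrdinal ∧ rst (v i) (v j).rank ∈ en c.toZFSet.rank))}
  have : {c : Ordinal.{u} | c.toZFSet.IsOrdinal ∧ (Sz μ (en c.toZFSet.rank) ∧
      ((v j).IsOrdinal ∧ rst (v i) (v j).rank ∈ en c.toZFSet.rank))} =
      {c | Sz μ (en c) ∧ rst (v i) (v j).rank ∈ en c} := by
    ext c
    simp only [Set.mem_ofPred_eq, rank_toZFSet]
    exact ⟨fun h => ⟨h.2.1, h.2.2.2⟩, fun h => ⟨ZFSet.isOrdinal_toZFSet _, h.1, hj, h.2⟩⟩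
  rw [this]
  rfl

/-- the comparison of codes is definable -/
theorem dz_cdlt (h : EN en) (μ : Cardinal.{u}) (i i' j : ℕ) : DZ.{u} fun v =>
    (v j).IsOrdinal ∧ cd en μ (v i) (v j).rank < cd en μ (v i') (v j).rank := by
  have h1 : DZ.{u} fun v => ∃ c c' : ZFSet.{u}, ((v j).IsOrdinal ∧ c.IsOrdinal ∧
      c.rank = cd en μ (v i) (v j).rank) ∧ ((v j).IsOrdinal ∧ c'.IsOrdinal ∧
      c'.rank = cd en μ (v i') (v j).rank) ∧ c ∈ c' :=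
    DZ.ex (DZ.ex (R := fun c' v => ((v (j + 1)).IsOrdinal ∧ (v 0).IsOrdinal ∧
      (v 0).rank = cd en μ (v (i + 1)) (v (j + 1)).rank) ∧ ((v (j + 1)).IsOrdinal ∧ c'.IsOrdinal ∧
      c'.rank = cd en μ (v (i' + 1)) (v (j + 1)).rank) ∧ v 0 ∈ c')
      ((dz_cd h μ (i + 2) (j + 2) 1).and ((dz_cd h μ (i' + 2) (j + 2) 0).and (DZ.mem 1 0))))
  refine h1.congr fun v => ?_
  constructor
  · rintro ⟨h1, h2⟩
    exact ⟨(cd en μ (v i) (v j).rank).toZFSet, (cd en μ (v i') (v j).rank).toZFSet,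
      ⟨h1, ZFSet.isOrdinal_toZFSet _, rank_toZFSet _⟩,
      ⟨h1, ZFSet.isOrdinal_toZFSet _, rank_toZFSet _⟩, toZFSet_mem_toZFSet_iff.2 h2⟩
  · rintro ⟨c, c', ⟨h1, h2, h3⟩, ⟨-, h5, h6⟩, h7⟩
    refine ⟨h1, ?_⟩
    rw [← h3, ← h6]
    exact ZFSet.rank_lt_of_mem h7

theorem dz_Lw (h : EN en) (μ : Cardinal.{u}) (α c₀ : Ordinal.{u}) (i i' : ℕ) :
    DZ.{u} fun v => Lw en μ α c₀ (v i) (v i') := by
  have h0 : DZ.{u} fun v => v 0 ∈ en c₀ ∧ ¬ ((v 0).IsOrdinal ∧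
      cd en μ (v (i + 1)) (v 0).rank < cd en μ (v (i' + 1)) (v 0).rank) :=
    (DZ.od (R := fun x v => v 0 ∈ x) (od_en h c₀) (DZ.mem 1 0)).and
      (dz_cdlt h μ (i + 1) (i' + 1) 0).not
  refine (dz_posc (P := fun z v => z ∈ en c₀ ∧ ¬ (z.IsOrdinal ∧
    cd en μ (v i) z.rank < cd en μ (v i') z.rank)) w0 α h0).not.congr fun v => ?_
  unfold Lw
  have : {b : Ordinal.{u} | b.toZFSet ∈ en c₀ ∧ ¬ (b.toZFSet.IsOrdinal ∧
      cd en μ (v i) b.toZFSet.rank < cd en μ (v i') b.toZFSet.rank)} =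
      {γ | γ ∈ E en c₀ ∧ ¬ cd en μ (v i) γ < cd en μ (v i') γ} := by
    ext b
    simp only [Set.mem_ofPred_eq, rank_toZFSet]
    refine and_congr_right fun _ => not_congr ?_
    exact ⟨fun h => h.2, fun h => ⟨ZFSet.isOrdinal_toZFSet _, h⟩⟩
  rw [this]

/-- a definable subset of an ordinal definable set -/
theorem od_sep {A : ZFSet.{u}} (hA : OD A) {P : ZFSet.{u} → Prop} (hP : DZ fun v => P (v 0)) :
    OD (ZFSet.sep P A) := by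
  refine OD.of_mem (P := fun v => v 0 ∈ A ∧ P (v 0)) (DZ.and ?_ hP) fun v => ?_
  · exact DZ.od (R := fun b v => v 0 ∈ b) hA (DZ.mem 1 0)
  · rw [ZFSet.mem_sep]

theorem pf_dw : T_DW.{u} := by
  intro en h μ α c₀ β
  refine ⟨ZFSet.sep (fun x => LB μ α x ∧ ¬ Bl μ x ∧ ∀ g, LB μ α g → ¬ Bl μ g →
    ¬ Lw en μ α c₀ g x) (V_ β), od_sep (od_V β) ?_, fun x => by rw [ZFSet.mem_sep]⟩
  exact (dz_LB h μ α 0).and ((dz_Bl h μ 0).not.and (DZ.all ((dz_LB h μ α 0).imp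
    ((dz_Bl h μ 0).not.imp (dz_Lw h μ α c₀ 0 1).not))))

end Pool.Agent.H45.NF
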