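import Pool.Agent.H45.NF.Targets

/-!
# Definability of positivity, least codes and sizes
-/

open Ordinal Cardinal Order Set
open scoped ZFSet

universe u

namespace HD.NF

open _root_.HD

/-- positivity, with a definable predicate -/
theorem dz_pos {P : ZFSet.{u} → (ℕ → ZFSet.{u}) → Prop} (i j : ℕ)
    (hP : DZ fun v => P (v 0) (fun n => v (n + 1))) :
    DZ fun v => (v i).IsOrdinal ∧ (v j).IsOrdinal ∧
      Pos (v i).rank (v j).rank {b | P b.toZFSet v} := by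
  have h1 : Loc.{u} fun v => (v (i + 1)).IsOrdinal ∧ (v (j + 1)).IsOrdinal ∧
      Pos (v (i + 1)).rank (v (j + 1)).rank {b | b.toZFSet ∈ v 0} :=
    loc_pos All.la (P := fun b v => b ∈ v 0) (i + 1) (j + 1) (Loc.mem 0 1)
  refine (DZ.ex (R := fun s v => (∀ z, z ∈ s ↔ z ∈ v j ∧ P z v) ∧
    ((v i).IsOrdinal ∧ (v j).IsOrdinal ∧ Pos (v i).rank (v j).rank {b | b.toZFSet ∈ s}))
    (DZ.and (DZ.all (R := fun z v => z ∈ v 0 ↔ z ∈ v (j + 1) ∧ P z (fun n => v (n + 1)))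
      ((DZ.mem 0 1).iff ((DZ.mem 0 (j + 2)).and ?_))) h1.dz)).congr fun v => ?_
  · refine (hP.ren (fun n => if n = 0 then 0 else n + 1)).congr fun v => ?_
    have e : (fun n => v (n + 1 + 1)) = fun n => v (if n + 1 = 0 then 0 else n + 1 + 1) := by
      funext n; simp
    rw [e]
    rfl
  · constructor
    · rintro ⟨h1, h2, h3⟩
      obtain ⟨ρ, hρ⟩ := ord_of h2
      refine ⟨ZFSet.sep (fun z => P z v) (v j), fun z => by rw [ZFSet.mem_sep], h1, h2, ?_⟩
      refine (Pos.congr fun b hb => ?_).1 h3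
      show P b.toZFSet v ↔ b.toZFSet ∈ ZFSet.sep (fun z => P z v) (v j)
      rw [ZFSet.mem_sep, hρ]
      rw [hρ, rank_toZFSet] at hb
      exact ⟨fun h => ⟨toZFSet_mem_toZFSet_iff.2 hb, h⟩, fun h => h.2⟩
    · rintro ⟨s, hs, h1, h2, h3⟩
      obtain ⟨ρ, hρ⟩ := ord_of h2
      refine ⟨h1, h2, (Pos.congr fun b hb => ?_).1 h3⟩
      show b.toZFSet ∈ s ↔ P b.toZFSet v
      rw [hs, hρ]
      rw [hρ, rank_toZFSet] at hb
      exact ⟨fun h => h.2, fun h => ⟨toZFSet_mem_toZFSet_iff.2 hb, h⟩⟩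

/-- positivity at fixed ordinals, with a definable predicate -/
theorem dz_posc {P : ZFSet.{u} → (ℕ → ZFSet.{u}) → Prop} (a α : Ordinal.{u})
    (hP : DZ fun v => P (v 0) (fun n => v (n + 1))) :
    DZ fun v => Pos a α {b | P b.toZFSet v} := by
  have h1 := dz_pos (P := fun z v => P z (fun n => v (n + 2))) 0 1 (by
    refine (hP.ren (fun n => if n = 0 then 0 else n + 2)).congr fun v => ?_
    have e : (fun n => v (n + 2 + 1)) = fun n => v (if n + 1 = 0 then 0 else n + 1 + 2) := by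
      funext n; simp
    rw [e]
    rfl)
  refine (DZ.ex (R := fun x v => x = a.toZFSet ∧ ∃ y, y = α.toZFSet ∧ (x.IsOrdinal ∧ y.IsOrdinal ∧
    Pos x.rank y.rank {b | P b.toZFSet v})) ((DZ.eqOrd a 0).and
      (DZ.ex (R := fun y v => y = α.toZFSet ∧ ((v 0).IsOrdinal ∧ y.IsOrdinal ∧
    Pos (v 0).rank y.rank {b | P b.toZFSet (fun n => v (n + 1))})) ((DZ.eqOrd α 0).and ?_)))).congr
      fun v => ?_
  · refine (h1.ren (fun n => if n = 0 then 1 else if n = 1 then 0 else n)).congr fun v => ?_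
    have e : (fun n => v (n + 1 + 1)) =
        fun n => v (if n + 2 = 0 then 1 else if n + 2 = 1 then 0 else n + 2) := by
      funext n; simp
    rw [e]
    rfl
  · constructor
    · intro h
      exact ⟨_, rfl, _, rfl, ZFSet.isOrdinal_toZFSet _, ZFSet.isOrdinal_toZFSet _, by
        rwa [rank_toZFSet, rank_toZFSet]⟩
    · rintro ⟨x, rfl, y, rfl, -, -, h⟩
      rwa [rank_toZFSet, rank_toZFSet] at h

/-- least ordinals with a definable property -/
theorem dz_sInf {S : ZFSet.{u} → (ℕ → ZFSet.{u}) → Prop}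
    (hS : DZ fun v => S (v 0) (fun n => v (n + 1))) :
    DZ fun v => (v 0).IsOrdinal ∧
      (v 0).rank = sInf {c : Ordinal.{u} | S c.toZFSet (fun n => v (n + 1))} := by
  have h0 : DZ fun v => S (v 0) (fun n => v (n + 2)) := by
    refine (hS.ren (fun n => if n = 0 then 0 else n + 1)).congr fun v => ?_
    have e : (fun n => v (n + 2)) = fun n => v (if n + 1 = 0 then 0 else n + 1 + 1) := by
      funext n; simp
    rw [e]
    rfl
  refine DZ.congr (P := fun v => (v 0).IsOrdinal ∧ ((S (v 0) (fun n => v (n + 1)) ∧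
    ∀ c ∈ v 0, ¬ S c (fun n => v (n + 1))) ∨ ((∀ c, c.IsOrdinal → ¬ S c (fun n => v (n + 1))) ∧
      v 0 = ∅))) ?_ fun v => ?_
  · refine (DZ.ord 0).and ((hS.and (DZ.allMem 0 ?_)).or ((DZ.all ?_).and (loc_empty 0).dz))
    · exact h0.not
    · exact (DZ.ord 0).imp h0.not
  · refine and_congr_right fun h => ?_
    obtain ⟨a, ha⟩ := ord_of h
    rw [ha, rank_toZFSet]
    constructor
    · rintro rfl
      by_cases hne : {c : Ordinal.{u} | S c.toZFSet (fun n => v (n + 1))}.Nonempty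
      · refine Or.inl ⟨csInf_mem hne, fun c hc => ?_⟩
        obtain ⟨c, hc', rfl⟩ := mem_toZFSet_iff.1 hc
        exact fun hh => absurd hc' (not_lt.2 (csInf_le' (show c ∈ {c : Ordinal.{u} |
          S c.toZFSet (fun n => v (n + 1))} from hh)))
      · refine Or.inr ⟨fun c hc hS => ?_, ?_⟩
        · obtain ⟨c, rfl⟩ := ord_of hc
          exact hne ⟨c, hS⟩
        · rw [Set.not_nonempty_iff_eq_empty.1 hne, Ordinal.sInf_empty, toZFSet_zero]
    · rintro (⟨h1, h2⟩ | ⟨h1, h2⟩)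
      · refine le_antisymm ?_ (csInf_le' h1)
        refine le_csInf ⟨a, h1⟩ fun c hc => ?_
        by_contra hlt
        exact h2 _ (toZFSet_mem_toZFSet_iff.2 (not_le.1 hlt)) hc
      · have h3 : {c : Ordinal.{u} | S c.toZFSet (fun n => v (n + 1))} = ∅ := by
          refine Set.eq_empty_iff_forall_notMem.2 fun c hc => ?_
          exact h1 _ (ZFSet.isOrdinal_toZFSet c) hc
        rw [h3, Ordinal.sInf_empty]
        have : a.toZFSet = (0 : Ordinal.{u}).toZFSet := by rw [h2, toZFSet_zero]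
        exact toZFSet_injective this

/-- `Sz` at the level of sets -/
theorem Sz_iff (μ : Cardinal.{u}) (Z : ZFSet.{u}) : Sz μ Z ↔ ∃ g : ZFSet.{u},
    (∀ a x x', ZFSet.pair a x ∈ g → ZFSet.pair a x' ∈ g → x = x') ∧
    ∀ x ∈ Z, ∃ a ∈ μ.ord.toZFSet, ZFSet.pair a x ∈ g := by
  constructor
  · rintro ⟨e, he⟩
    refine ⟨gr e μ.ord, ?_, fun x hx => ?_⟩
    · intro a x x' h h'
      obtain ⟨b, -, h1⟩ := mem_gr.1 h
      obtain ⟨b', -, h2⟩ := mem_gr.1 h'
      obtain ⟨rfl, rfl⟩ := ZFSet.pair_injective h1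
      obtain ⟨h3, rfl⟩ := ZFSet.pair_injective h2
      rw [toZFSet_injective h3]
    · obtain ⟨a, ha, rfl⟩ := he x hx
      exact ⟨_, toZFSet_mem_toZFSet_iff.2 ha, pair_mem_gr.2 ⟨ha, rfl⟩⟩
  · rintro ⟨g, h1, h2⟩
    classical
    refine ⟨fun a => if h : ∃ x, ZFSet.pair a.toZFSet x ∈ g then Classical.choose h else ∅,
      fun x hx => ?_⟩
    obtain ⟨a, ha, hp⟩ := h2 x hx
    obtain ⟨a, ha', rfl⟩ := mem_toZFSet_iff.1 ha
    refine ⟨a, ha', ?_⟩
    have hex : ∃ x, ZFSet.pair a.toZFSet x ∈ g := ⟨x, hp⟩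
    simp only [hex, dif_pos]
    exact h1 _ _ _ hp (Classical.choose_spec hex)

theorem dz_Sz (μ : Cardinal.{u}) (i : ℕ) : DZ.{u} fun v => Sz μ (v i) := by
  refine DZ.congr (P := fun v => ∃ g : ZFSet.{u},
    (∀ a x x', ZFSet.pair a x ∈ g → ZFSet.pair a x' ∈ g → x = x') ∧
    ∀ x ∈ v i, ∃ a ∈ μ.ord.toZFSet, ZFSet.pair a x ∈ g) ?_ fun v => Sz_iff μ (v i)
  refine DZ.ex (DZ.and (DZ.all (DZ.all (DZ.all (((loc_pmem 2 1 3).dz.imp
    ((loc_pmem 2 0 3).dz.imp (DZ.eq 1 0))))))) (DZ.allMem _ ?_))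
  exact DZ.od (R := fun b v => ∃ a ∈ b, ZFSet.pair a (v 0) ∈ v 1) (OD.ordinal μ.ord)
    (DZ.exMem 0 (loc_pmem 0 2 3).dz)

/-- substitution of a value of `en` -/
theorem dz_en' {en : Ordinal.{u} → ZFSet.{u}} (h : EN en)
    {R : ZFSet.{u} → (ℕ → ZFSet.{u}) → Prop} (i : ℕ)
    (hR : DZ fun v => R (v 0) (fun n => v (n + 1))) :
    DZ fun v => (v i).IsOrdinal ∧ R (en (v i).rank) v := by
  refine (DZ.ex (R := fun x v => ((v i).IsOrdinal ∧ x = en (v i).rank) ∧ R x v)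
    (DZ.and (h.dz.ren fun n => if n = 0 then i + 1 else 0) hR)).congr fun v => ?_
  constructor
  · rintro ⟨h1, h2⟩
    exact ⟨_, ⟨h1, rfl⟩, h2⟩
  · rintro ⟨x, ⟨h1, rfl⟩, h2⟩
    exact ⟨h1, h2⟩

theorem dz_V {β : Ordinal.{u}} (i : ℕ) : DZ.{u} fun v => v i = V_ β := by
  refine (DZ.od (R := fun b v => b.IsOrdinal ∧ v i = V_ b.rank) (OD.ordinal β)
    (loc_V 0 (i + 1)).dz).congr fun v => ?_
  rw [rank_toZFSet]
  exact ⟨fun h => ⟨ZFSet.isOrdinal_toZFSet _, h⟩, fun h => h.2⟩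

theorem od_V (β : Ordinal.{u}) : OD (V_ β) := OD.of_dz (dz_V 0)

end HD.NF
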