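import Pool.Agent.H45.NF.DW

/-!
# CL. Comparison of two sequences
-/

open Ordinal Cardinal Order Set
open scoped ZFSet

universe u

namespace Pool.Agent.H45.NF

open _root_.HD HD.NF

theorem sz_iff {μ : Cardinal.{u}} {Z : ZFSet.{u}} :
    Sz μ Z ↔ #{x : ZFSet.{u} // x ∈ Z} ≤ Cardinal.lift.{u + 1} μ := by
  have h1 : #(Iio μ.ord) = Cardinal.lift.{u + 1} μ := by
    rw [Cardinal.mk_Iio_ordinal, Cardinal.card_ord]
  rw [← h1]
  constructor
  · rintro ⟨e, he⟩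
    choose a ha using fun x : {x : ZFSet.{u} // x ∈ Z} => he x.1 x.2
    refine Cardinal.mk_le_of_injective (f := fun x => (⟨a x, (ha x).1⟩ : Iio μ.ord)) ?_
    intro x y hxy
    have : a x = a y := congrArg Subtype.val hxy
    exact Subtype.ext (by rw [(ha x).2, (ha y).2, this])
  · intro h
    obtain ⟨g⟩ := (Cardinal.le_def _ _).1 h
    classical
    refine ⟨fun a => if h : ∃ x : {x : ZFSet.{u} // x ∈ Z}, (g x).1 = a then
      (Classical.choose h).1 else ∅, fun x hx => ⟨(g ⟨x, hx⟩).1, (g ⟨x, hx⟩).2, ?_⟩⟩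
    have hex : ∃ y : {x : ZFSet.{u} // x ∈ Z}, (g y).1 = (g ⟨x, hx⟩).1 := ⟨⟨x, hx⟩, rfl⟩
    simp only [hex, dif_pos]
    have := g.injective (Subtype.ext (Classical.choose_spec hex))
    rw [this]

theorem rst_rst {f : ZFSet.{u}} {ξ β : Ordinal.{u}} (h : ξ ≤ β) : rst (rst f β) ξ = rst f ξ := by
  ext z
  rw [mem_rst, mem_rst, mem_rst]
  constructor
  · rintro ⟨⟨h1, -⟩, h2⟩
    exact ⟨h1, h2⟩
  · rintro ⟨h1, a, ha, y, h2⟩
    exact ⟨⟨h1, a, ha.trans_le h, y, h2⟩, a, ha, y, h2⟩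

theorem cd_rst {en : Ordinal.{u} → ZFSet.{u}} {μ : Cardinal.{u}} {f : ZFSet.{u}}
    {ξ β : Ordinal.{u}} (h : ξ ≤ β) : cd en μ (rst f β) ξ = cd en μ f ξ := by
  unfold cd
  rw [rst_rst h]

theorem od_powerset {A : ZFSet.{u}} (hA : OD A) : OD (ZFSet.powerset A) := by
  refine OD.of_dz ?_
  exact DZ.od (R := fun b v => v 0 = ZFSet.powerset b) hA (loc_powerset 1 0).dz

/-- the set of `γ < β` such that the code of `u` is less than the code of `v` -/
noncomputable def cw (en : Ordinal.{u} → ZFSet.{u}) (μ : Cardinal.{u}) (β : Ordinal.{u})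
    (x y : ZFSet.{u}) : ZFSet.{u} := os β {γ | cd en μ x γ < cd en μ y γ}

theorem dz_cw {en : Ordinal.{u} → ZFSet.{u}} (h : EN en) (μ : Cardinal.{u}) (β : Ordinal.{u})
    (i j k : ℕ) : DZ.{u} fun v => v k = cw en μ β (v i) (v j) := by
  refine DZ.congr (P := fun v => ∀ z, z ∈ v k ↔ z ∈ β.toZFSet ∧ (z.IsOrdinal ∧
    cd en μ (v i) z.rank < cd en μ (v j) z.rank)) ?_ fun v => ?_
  · refine DZ.all ((DZ.mem 0 (k + 1)).iff (DZ.and ?_ (dz_cdlt h μ (i + 1) (j + 1) 0)))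
    exact DZ.od (R := fun b v => v 0 ∈ b) (OD.ordinal β) (DZ.mem 1 0)
  · have key : ∀ z, z ∈ cw en μ β (v i) (v j) ↔ z ∈ β.toZFSet ∧ (z.IsOrdinal ∧
        cd en μ (v i) z.rank < cd en μ (v j) z.rank) := by
      intro z
      unfold cw
      rw [mem_os]
      constructor
      · rintro ⟨a, ha, h1, rfl⟩
        refine ⟨toZFSet_mem_toZFSet_iff.2 ha, ZFSet.isOrdinal_toZFSet _, ?_⟩
        rw [rank_toZFSet]
        exact h1
      · rintro ⟨h1, -, h2⟩
        obtain ⟨a, ha, rfl⟩ := mem_toZFSet_iff.1 h1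
        rw [rank_toZFSet] at h2
        exact ⟨a, ha, h2, rfl⟩
    constructor
    · rintro he z
      rw [he, key]
    · intro he
      ext z
      rw [he, key]

theorem pf_cl : HD.NF.T_CL.{u} := by
  intro en hen μ α f g hf hg β hβ
  obtain ⟨A, hA, hAs, hAm⟩ := hf.2 β hβ
  obtain ⟨B, hB, hBs, hBm⟩ := hg.2 β hβ
  refine ⟨ZFSet.sep (fun s => ∃ x ∈ A, ∃ y ∈ B, s = cw en μ β x y)
    (ZFSet.powerset β.toZFSet), ?_, ?_, ?_⟩
  · refine od_sep (od_powerset (OD.ordinal β)) ?_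
    refine DZ.od (R := fun a v => ∃ x ∈ a, ∃ y ∈ B, v 0 = cw en μ β x y) hA (DZ.exMem 0 ?_)
    exact DZ.od (R := fun b v => ∃ y ∈ b, v 2 = cw en μ β (v 0) y) hB
      (DZ.exMem 0 (dz_cw hen μ β 2 0 4))
  · rw [sz_iff] at hAs hBs ⊢
    have h1 : #{s : ZFSet.{u} // s ∈ ZFSet.sep (fun s => ∃ x ∈ A, ∃ y ∈ B, s = cw en μ β x y)
        (ZFSet.powerset β.toZFSet)} ≤ #({x : ZFSet.{u} // x ∈ A} × {x : ZFSet.{u} // x ∈ B}) := by
      have h2 : ∀ s : {s : ZFSet.{u} // s ∈ ZFSet.sep (fun s => ∃ x ∈ A, ∃ y ∈ B,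
          s = cw en μ β x y) (ZFSet.powerset β.toZFSet)},
          ∃ p : {x : ZFSet.{u} // x ∈ A} × {x : ZFSet.{u} // x ∈ B},
            s.1 = cw en μ β p.1.1 p.2.1 := by
        rintro ⟨s, hs⟩
        obtain ⟨-, x, hx, y, hy, h⟩ := ZFSet.mem_sep.1 hs
        exact ⟨(⟨x, hx⟩, ⟨y, hy⟩), h⟩
      choose p hp using h2
      refine Cardinal.mk_le_of_injective (f := p) fun s t hst => Subtype.ext ?_
      rw [hp s, hp t, hst]
    refine h1.trans ?_
    rw [Cardinal.mk_prod, Cardinal.lift_mul, Cardinal.lift_id, Cardinal.lift_id]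
    exact mul_le_mul' hAs hBs
  · rw [ZFSet.mem_sep]
    refine ⟨?_, _, hAm, _, hBm, ?_⟩
    · rw [ZFSet.mem_powerset]
      intro z hz
      obtain ⟨a, ha, -, rfl⟩ := mem_os.1 hz
      exact toZFSet_mem_toZFSet_iff.2 ha
    · unfold cw
      ext z
      rw [mem_os, mem_os]
      refine exists_congr fun a => and_congr_right fun ha => and_congr_left fun _ => ?_
      show cd en μ f a < cd en μ g a ↔ cd en μ (rst f β) a < cd en μ (rst g β) a
      rw [cd_rst ha.le, cd_rst ha.le]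

end Pool.Agent.H45.NF
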