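import Pool.Agent.H45.NF.DW

/-!
# DL. The decision lemma
-/

open Ordinal Cardinal Order Set
open scoped ZFSet

universe u

namespace Pool.Agent.H45.NF

open _root_.HD HD.NF

theorem pf_dl (hSD : T_SD.{u}) (hSK : T_SK.{u}) (hSX : T_SX.{u}) : T_DL.{u} := by
  rintro en D α hS c₀ hc₀ μ hμ A hA ⟨hA1, hA2⟩
  obtain ⟨M, hM, hM0, hMD, hP⟩ := hS.rf _ _ hA1 hA2
  have hDS := (hSD en hS.hen μ c₀).1
  have hP2 : Pos M.ord α {γ | ∃ c, Fa en μ c₀ γ c} := by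
    refine hP.mono ?_
    intro ν hν h _
    obtain ⟨h1, h2⟩ := h
    obtain ⟨Z, hZ, hZs, hZm⟩ := hA ν hν
    obtain ⟨c, rfl⟩ := (hS.hen.od _).1 hZ
    refine ⟨c, hZs, os ν A, hZm, ?_, ?_⟩
    · refine (Pos.congr fun b hb => ?_).1 h1
      show b ∈ E en c₀ ∧ b ∈ A ↔ b ∈ E en c₀ ∧ b.toZFSet ∈ os ν A
      rw [ord_mem_os]
      exact ⟨fun h => ⟨h.1, hb, h.2⟩, fun h => ⟨h.1, h.2.2⟩⟩
    · refine (Pos.congr fun b hb => ?_).1 h2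
      show b ∈ E en c₀ ∧ b ∉ A ↔ b ∈ E en c₀ ∧ b.toZFSet ∉ os ν A
      rw [ord_mem_os]
      exact ⟨fun h => ⟨h.1, fun h' => h.2 h'.2⟩, fun h => ⟨h.1, fun h' => h.2 ⟨hb, h'⟩⟩⟩
  obtain ⟨c', hc', hat⟩ := hS.ats M hM hMD _ hDS hP2
  have hsp : Spt en M μ α c₀ c' := ⟨hS.hen, hM, hM0, hS.unc.trans hS.dlt, hμ, hc₀, hat,
    fun γ hγ => hc' hγ⟩
  obtain ⟨r, hr⟩ := hSK en M μ α c₀ c' hsp
  exact hSX en M μ α c₀ c' hsp r hr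

end Pool.Agent.H45.NF
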