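import Pool.Agent.H45.NF.DW

/-!
# NN. `NoNew` at a situation
-/

open Ordinal Cardinal Order Set
open scoped ZFSet

universe u

namespace Pool.Agent.H45.NF

open _root_.HD HD.NF

theorem func_pairs {θ : Ordinal.{u}} {y f : ZFSet.{u}} (hf : ZFSet.IsFunc θ.toZFSet y f) :
    ∀ z ∈ f, ∃ a < θ, ∃ y, z = ZFSet.pair a.toZFSet y := by
  intro z hz
  obtain ⟨a, ha, b, -, rfl⟩ := ZFSet.mem_prod.1 (hf.1 hz)
  obtain ⟨a, ha', rfl⟩ := mem_toZFSet_iff.1 ha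
  exact ⟨a, ha', b, rfl⟩

theorem pf_nn (hNW : T_NW.{u}) (hB1 : T_B1.{u}) (hPB : T_PB.{u}) : T_NN.{u} := by
  intro en D θ hS f y hf
  have hθ : ℵ₀ < θ.cof := hS.unc.trans hS.dlt
  have hlim : IsSuccLimit θ := Pool.Agent.H33.HD.RF.lim_of_cof hθ
  have hp := func_pairs hf
  refine ⟨fun h => ?_, fun μ hμ => ⟨fun h => ?_, fun p hp' h => ?_⟩⟩
  · have h1 : succ ((2 : Cardinal.{u}) ^ (1 : Cardinal.{u})) < θ.cof := by
      have h2 : (2 : Cardinal.{u}) ^ (1 : Cardinal.{u}) < ℵ₀ := by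
        rw [Cardinal.power_one]
        exact_mod_cast Cardinal.natCast_lt_aleph0 (n := 2)
      exact (Cardinal.isSuccLimit_aleph0.succ_lt h2).trans hθ
    have h3 : Bl 1 f := hNW en D θ hS 1 h1 f ⟨hp, fun ξ hξ => (hB1 _).2 (h ξ hξ).od⟩
    refine hod_iff.2 ⟨(hB1 f).1 h3, fun z hz => ?_⟩
    obtain ⟨a, ha, b, rfl⟩ := hp z hz
    refine (hod_iff.1 (h (succ a) (hlim.succ_lt ha))).2 _ ?_
    exact mem_rst.2 ⟨hz, a, lt_succ a, b, rfl⟩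
  · exact hNW en D θ hS μ hμ f ⟨hp, h⟩
  · have hμ2 : μ < θ.cof := ((Cardinal.cantor μ).trans (lt_succ _)).trans hμ
    obtain ⟨h1, h2⟩ := hPB μ θ hθ hμ2 f y p hf hp' h
    exact h2 (hNW en D θ hS μ hμ f ⟨hp, h1⟩)

end Pool.Agent.H45.NF
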