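import Pool.Agent.H45.NF.DW

/-!
# NW. There are no new sequences
-/

open Ordinal Cardinal Order Set
open scoped ZFSet

universe u

namespace Pool.Agent.H45.NF

open _root_.HD HD.NF

theorem ds_univ : DS (Set.univ : Set Ordinal.{u}) := (DO.cst True).congr fun _ => by simp

theorem succ_two_pow_lt {μ κ : Cardinal.{u}} (hκ : ℵ₀ < κ) (h : succ (2 ^ μ) < κ) :
    succ ((2 : Cardinal.{u}) ^ (μ * μ)) < κ := by
  rcases le_or_gt ℵ₀ μ with hμ | hμ
  · rwa [Cardinal.mul_eq_self hμ]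
  · have h1 : μ * μ < ℵ₀ := Cardinal.mul_lt_aleph0 hμ hμ
    have h2 : (2 : Cardinal.{u}) ^ (μ * μ) < ℵ₀ :=
      Cardinal.power_lt_aleph0 (by exact_mod_cast Cardinal.natCast_lt_aleph0 (n := 2)) h1
    exact (Cardinal.isSuccLimit_aleph0.succ_lt h2).trans hκ

theorem pf_nw (hDL : T_DL.{u}) (hCL : HD.NF.T_CL.{u}) (hDW : T_DW.{u}) (hZS : T_ZS.{u}) : T_NW.{u} := by
  intro en D α hS μ hμ f hf
  have hα : ℵ₀ < α.cof := hS.unc.trans hS.dlt
  obtain ⟨c₀, -, hc₀⟩ := hS.ats ℵ₀ Cardinal.isRegular_aleph0 hS.unc Set.univ ds_univ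
    (All.vc ℵ₀ α Cardinal.isRegular_aleph0 hα)
  have hc₀' : Atom en w0 α c₀ := hc₀
  have dec : ∀ g h, LB μ α g → LB μ α h →
      ¬ (Pos w0 α {γ | γ ∈ E en c₀ ∧ cd en μ g γ < cd en μ h γ} ∧
        Pos w0 α {γ | γ ∈ E en c₀ ∧ ¬ cd en μ g γ < cd en μ h γ}) := by
    intro g h hg hh
    exact hDL en D α hS c₀ hc₀' (μ * μ) (succ_two_pow_lt hα hμ) {γ | cd en μ g γ < cd en μ h γ}
      (hCL en hS.hen μ α g h hg hh)
  by_contra hBl
  -- a minimal element
  obtain ⟨m, ⟨hm, hmB⟩, hmin⟩ : ∃ m, (LB μ α m ∧ ¬ Bl μ m) ∧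
      ∀ g, LB μ α g → ¬ Bl μ g → ¬ Lw en μ α c₀ g m := by
    by_contra hno
    push Not at hno
    choose! nx h1 h2 h3 using hno
    let s : ℕ → ZFSet.{u} := fun n => nx^[n] f
    have hs : ∀ n, LB μ α (s n) ∧ ¬ Bl μ (s n) := by
      intro n
      induction n with
      | zero => exact ⟨hf, hBl⟩
      | succ n ih =>
        have e : s (n + 1) = nx (s n) := Function.iterate_succ_apply' nx n f
        rw [e]
        exact ⟨h1 _ ih, h2 _ ih⟩
    have hlt : ∀ n, Lw en μ α c₀ (s (n + 1)) (s n) := by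
      intro n
      have e : s (n + 1) = nx (s n) := Function.iterate_succ_apply' nx n f
      rw [e]
      exact h3 _ (hs n)
    have hω : (ω : Ordinal.{u}).card < α.cof := by
      rw [Ordinal.card_omega0]; exact hα
    have hnull := All.va w0 α hα ω hω (fun i => {γ | γ ∈ E en c₀ ∧ ∃ n : ℕ, i = n ∧
      ¬ cd en μ (s (n + 1)) γ < cd en μ (s n) γ}) (fun i hi => by
        obtain ⟨n, rfl⟩ := Ordinal.lt_omega0.1 hi
        intro hP
        refine hlt n (hP.mono fun b _ hb _ => ?_)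
        obtain ⟨hb1, k, hk, hb2⟩ := hb
        have : n = k := by exact_mod_cast hk
        subst this
        exact ⟨hb1, hb2⟩)
    obtain ⟨γ, hγ, -, hγ1, -⟩ := pos_diff All.va hα hc₀'.pos hnull univ
      ⟨fun a ha => ⟨succ a, by
        have hlim : IsSuccLimit α := Pool.Agent.H33.HD.RF.lim_of_cof hα
        exact hlim.succ_lt ha, lt_succ a, Set.mem_univ _⟩, fun _ _ _ _ => Set.mem_univ _⟩
    have hdec : ∀ n, cd en μ (s (n + 1)) γ < cd en μ (s n) γ := by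
      intro n
      by_contra hn
      exact hγ1.2 ⟨(n : Ordinal.{u}), Ordinal.natCast_lt_omega0 n, hγ1.1, n, rfl, hn⟩
    have hanti : StrictAnti fun n => cd en μ (s n) γ := strictAnti_nat_of_succ_lt hdec
    exact absurd hanti (not_strictAnti_of_wellFoundedLT _)
  obtain ⟨Z, hZ, hZm⟩ := hDW en hS.hen μ α c₀ (m.rank + 1)
  have hmZ : m ∈ Z := by
    refine (hZm m).2 ⟨?_, hm, hmB, hmin⟩
    rw [ZFSet.mem_vonNeumann]
    exact lt_add_one _
  have hmu : succ μ < α.cof := by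
    have : succ μ ≤ 2 ^ μ := succ_le_of_lt (Cardinal.cantor μ)
    exact (this.trans_lt (lt_succ _)).trans hμ
  have hsz := hZS en hS.hen μ α c₀ Z hmu hα hc₀'.pos (fun g hg => ((hZm g).1 hg).2.1) (by
    intro g hg h hh
    obtain ⟨-, g1, g2, g3⟩ := (hZm g).1 hg
    obtain ⟨-, k1, k2, k3⟩ := (hZm h).1 hh
    have e1 : ¬ Pos w0 α {γ | γ ∈ E en c₀ ∧ cd en μ g γ < cd en μ h γ} := by
      intro hp
      refine dec g h g1 k1 ⟨hp, ?_⟩
      have := k3 g g1 g2
      unfold Lw at this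
      rwa [not_not] at this
    have e2 : ¬ Pos w0 α {γ | γ ∈ E en c₀ ∧ cd en μ h γ < cd en μ g γ} := by
      intro hp
      refine dec h g k1 g1 ⟨hp, ?_⟩
      have := g3 h k1 k2
      unfold Lw at this
      rwa [not_not] at this
    intro hp
    refine null_union All.va hα e1 e2 (hp.mono fun b _ hb _ => ?_)
    rcases lt_or_gt_of_ne hb.2 with h5 | h5
    · exact Or.inl ⟨hb.1, h5⟩
    · exact Or.inr ⟨hb.1, h5⟩)
  exact hmB ⟨Z, hZ, hsz, hmZ⟩

end Pool.Agent.H45.NF
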