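import Pool.Agent.H45.NF.CL
import Pool.Agent.H45.NF.NN

/-!
# PB. From definability from a set to small ordinal definable sets and back
-/

open Ordinal Cardinal Order Set
open scoped ZFSet

universe u

namespace Pool.Agent.H45.NF

open _root_.HD HD.NF

theorem bl_of_odp (hPA : T_PA.{u}) {μ : Cardinal.{u}} {p x : ZFSet.{u}}
    (hμ : Sz μ (V_ (p.rank + 1))) (h : ODp p x) : Bl μ x := by
  obtain ⟨R, hR, hRx⟩ := (hPA p x).1 h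
  refine ⟨ZFSet.sep (fun z => ∃ p' ∈ V_ (p.rank + 1), ∀ y, ZFSet.pair p' y ∈ R ↔ y = z)
    (V_ (x.rank + 1)), od_sep (od_V _) ?_, ?_, ?_⟩
  · refine DZ.od (R := fun a v => ∃ p' ∈ a, ∀ y, ZFSet.pair p' y ∈ R ↔ y = v 0) (od_V _)
      (DZ.exMem 0 (DZ.all (DZ.iff ?_ (DZ.eq 0 3))))
    exact DZ.od (R := fun r v => ZFSet.pair (v 1) (v 0) ∈ r) hR (loc_pmem 2 1 0).dz
  · rw [sz_iff] at hμ ⊢
    refine le_trans ?_ hμ
    have h2 : ∀ z : {z : ZFSet.{u} // z ∈ ZFSet.sep (fun z => ∃ p' ∈ V_ (p.rank + 1),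
        ∀ y, ZFSet.pair p' y ∈ R ↔ y = z) (V_ (x.rank + 1))},
        ∃ p' : {q : ZFSet.{u} // q ∈ V_ (p.rank + 1)},
          ∀ y, ZFSet.pair p'.1 y ∈ R ↔ y = z.1 := by
      rintro ⟨z, hz⟩
      obtain ⟨-, p', hp', h⟩ := ZFSet.mem_sep.1 hz
      exact ⟨⟨p', hp'⟩, h⟩
    choose g hg using h2
    refine Cardinal.mk_le_of_injective (f := g) fun s t hst => Subtype.ext ?_
    have := (hg s s.1).2 rfl
    rw [hst] at this
    exact (hg t s.1).1 this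
  · rw [ZFSet.mem_sep, ZFSet.mem_vonNeumann]
    refine ⟨lt_add_one _, p, ?_, hRx⟩
    rw [ZFSet.mem_vonNeumann]
    exact lt_add_one _

/-- two different sets of pairs differ below some `a < θ` -/
theorem exists_diff {θ : Ordinal.{u}} {f g : ZFSet.{u}}
    (hf : ∀ z ∈ f, ∃ a < θ, ∃ y, z = ZFSet.pair a.toZFSet y)
    (hg : ∀ z ∈ g, ∃ a < θ, ∃ y, z = ZFSet.pair a.toZFSet y) (hne : g ≠ f) :
    ∃ a < θ, ∀ γ, a < γ → rst g γ ≠ rst f γ := by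
  have h5 : ∃ x, ¬ (x ∈ g ↔ x ∈ f) := by
    by_contra hno
    push Not at hno
    exact hne (ZFSet.ext fun x => hno x)
  obtain ⟨x, hx⟩ := h5
  have h6 : ∃ a < θ, ∃ y, x = ZFSet.pair a.toZFSet y := by
    by_cases hxi : x ∈ g
    · exact hg x hxi
    · have : x ∈ f := by
        by_contra hx'
        exact hx ⟨fun h => absurd h hxi, fun h => absurd h hx'⟩
      exact hf x this
  obtain ⟨a, ha, y, hxy⟩ := h6
  refine ⟨a, ha, fun γ hγ he => hx ?_⟩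
  have e1 : x ∈ rst g γ ↔ x ∈ g := by
    rw [mem_rst]; exact ⟨fun h => h.1, fun h => ⟨h, a, hγ, y, hxy⟩⟩
  have e2 : x ∈ rst f γ ↔ x ∈ f := by
    rw [mem_rst]; exact ⟨fun h => h.1, fun h => ⟨h, a, hγ, y, hxy⟩⟩
  rw [← e1, ← e2, he]

theorem pf_pb (hPA : T_PA.{u}) : T_PB.{u} := by
  intro μ θ hθ hμθ f y p hf hp h
  refine ⟨fun ξ hξ => bl_of_odp hPA hp (h ξ hξ), ?_⟩
  rintro ⟨Z, hZ, hZs, hfZ⟩
  have hlim : IsSuccLimit θ := Pool.Agent.H33.HD.RF.lim_of_cof hθ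
  have hfp := func_pairs hf
  obtain ⟨e, he⟩ := hZs
  have h1 : ∀ i : Ordinal.{u}, ∃ a < θ, (∀ z ∈ e i, ∃ a < θ, ∃ y, z = ZFSet.pair a.toZFSet y) →
      e i ≠ f → ∀ γ, a < γ → rst (e i) γ ≠ rst f γ := by
    intro i
    by_cases hi : (∀ z ∈ e i, ∃ a < θ, ∃ y, z = ZFSet.pair a.toZFSet y) ∧ e i ≠ f
    · obtain ⟨a, ha, h⟩ := exists_diff hfp hi.1 hi.2
      exact ⟨a, ha, fun _ _ => h⟩
    · exact ⟨0, hlim.bot_lt, fun h1 h2 => absurd ⟨h1, h2⟩ hi⟩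
  choose a ha1 ha2 using h1
  obtain ⟨s, hs1, hs2⟩ := Pool.Agent.H3.HD.exists_bound (ρ := θ) (τ := μ.ord)
    (by rw [Cardinal.card_ord]; exact hμθ) a fun i _ => ha1 i
  set γ₀ := succ s with hγ₀
  have hγθ : γ₀ < θ := hlim.succ_lt hs1
  have huniq : ∀ g ∈ Z, (∀ z ∈ g, ∃ a ∈ θ.toZFSet, ∃ y, z = ZFSet.pair a y) →
      rst g γ₀ = rst f γ₀ → g = f := by
    intro g hg hgp hr
    by_contra hne
    obtain ⟨i, hi, rfl⟩ := he g hg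
    have hgp' : ∀ z ∈ e i, ∃ a < θ, ∃ y, z = ZFSet.pair a.toZFSet y := by
      intro z hz
      obtain ⟨b, hb, y, h⟩ := hgp z hz
      obtain ⟨b, hb', rfl⟩ := mem_toZFSet_iff.1 hb
      exact ⟨b, hb', y, h⟩
    exact ha2 i hgp' hne γ₀ ((hs2 i hi).trans_lt (lt_succ s)) hr
  obtain ⟨R, hR, hRx⟩ := (hPA p (rst f γ₀)).1 (h γ₀ hγθ)
  refine (hPA p f).2 ⟨ZFSet.sep (fun w => ∃ p' g, w = ZFSet.pair p' g ∧ g ∈ Z ∧
    (∀ z ∈ g, ∃ a ∈ θ.toZFSet, ∃ y, z = ZFSet.pair a y) ∧ ZFSet.pair p' (rst g γ₀) ∈ R)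
    (V_ ((ZFSet.pair p f).rank + 1)), od_sep (od_V _) ?_, fun g => ?_⟩
  · refine DZ.ex (R := fun p' v => ∃ g, v 0 = ZFSet.pair p' g ∧ g ∈ Z ∧
      (∀ z ∈ g, ∃ a ∈ θ.toZFSet, ∃ y, z = ZFSet.pair a y) ∧ ZFSet.pair p' (rst g γ₀) ∈ R)
      (DZ.ex ((loc_pair 2 1 0).dz.and (DZ.and ?_ (DZ.and ?_ ?_))))
    · exact DZ.od (R := fun b v => v 0 ∈ b) hZ (DZ.mem 1 0)
    · refine DZ.allMem 0 ?_
      exact DZ.od (R := fun b v => ∃ a ∈ b, ∃ y, v 0 = ZFSet.pair a y) (OD.ordinal θ)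
        (DZ.exMem 0 (DZ.ex (loc_pair 3 1 0).dz))
    · have h3 : DZ.{u} fun v => (v 0).IsOrdinal ∧ ZFSet.pair (v 2) (rst (v 1) (v 0).rank) ∈ R :=
        dz_rst' (R := fun s v => ZFSet.pair (v 2) s ∈ R) 1 0
          (DZ.od (R := fun r v => ZFSet.pair (v 3) (v 0) ∈ r) hR (loc_pmem 4 1 0).dz)
      refine (DZ.od (R := fun b v => b.IsOrdinal ∧ ZFSet.pair (v 1) (rst (v 0) b.rank) ∈ R)
        (OD.ordinal γ₀) h3).congr fun v => ?_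
      rw [rank_toZFSet]
      exact ⟨fun h => ⟨ZFSet.isOrdinal_toZFSet _, h⟩, fun h => h.2⟩
  · rw [ZFSet.mem_sep]
    constructor
    · rintro ⟨-, p', g', hpg, hg1, hg2, hg3⟩
      obtain ⟨rfl, rfl⟩ := ZFSet.pair_injective hpg
      exact huniq g hg1 hg2 ((hRx _).1 hg3)
    · rintro rfl
      refine ⟨?_, p, g, rfl, hfZ, fun z hz => ?_, (hRx _).2 rfl⟩
      · rw [ZFSet.mem_vonNeumann]
        exact lt_add_one _
      · obtain ⟨b, hb, y, h⟩ := hfp z hz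
        exact ⟨_, toZFSet_mem_toZFSet_iff.2 hb, y, h⟩

end Pool.Agent.H45.NF
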