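import Pool.Agent.H45.NF.CL

/-!
# ZS. At most `μ` equivalent sequences
-/

open Ordinal Cardinal Order Set
open scoped ZFSet

universe u

namespace Pool.Agent.H45.NF

open _root_.HD HD.NF

/-- more than `μ` elements -/
theorem not_sz {μ : Cardinal.{u}} {Z : ZFSet.{u}} (h : ¬ Sz μ Z) :
    ∃ z : Ordinal.{u} → ZFSet.{u}, (∀ i < (succ μ).ord, z i ∈ Z) ∧
      ∀ i < (succ μ).ord, ∀ i' < (succ μ).ord, z i = z i' → i = i' := by
  rw [sz_iff, not_le] at h
  have h1 : Cardinal.lift.{u + 1} (succ μ) ≤ #{x : ZFSet.{u} // x ∈ Z} := by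
    rw [Cardinal.lift_succ]
    exact succ_le_of_lt h
  have h2 : #(Iio (succ μ).ord) = Cardinal.lift.{u + 1} (succ μ) := by
    rw [Cardinal.mk_Iio_ordinal, Cardinal.card_ord]
  rw [← h2] at h1
  obtain ⟨g⟩ := (Cardinal.le_def _ _).1 h1
  classical
  have hv : ∀ i (hi : i < (succ μ).ord), (if h : i ∈ Iio (succ μ).ord then (g ⟨i, h⟩).1 else ∅) =
      (g ⟨i, hi⟩).1 := fun i hi => dif_pos (show i ∈ Iio (succ μ).ord from hi)
  refine ⟨fun i => if h : i ∈ Iio (succ μ).ord then (g ⟨i, h⟩).1 else ∅, fun i hi => ?_,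
    fun i hi i' hi' he => ?_⟩
  · have := (g ⟨i, hi⟩).2
    rw [← hv i hi] at this
    exact this
  · have he' : (g ⟨i, hi⟩).1 = (g ⟨i', hi'⟩).1 := by
      rw [← hv i hi, ← hv i' hi']
      exact he
    exact congrArg Subtype.val (g.injective (Subtype.ext he'))

theorem pf_zs : T_ZS.{u} := by
  intro en hen μ α c₀ Z hμ hα hpos hLB heq
  by_contra hsz
  obtain ⟨z, hz, hinj⟩ := not_sz hsz
  have hlim : IsSuccLimit α := Pool.Agent.H33.HD.RF.lim_of_cof hα
  have hτ : ((succ μ).ord).card < α.cof := by rw [Cardinal.card_ord]; exact hμ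
  have h0 : (0 : Ordinal.{u}) < (succ μ).ord := by
    have h : (0 : Cardinal.{u}) < succ μ := lt_of_le_of_lt (zero_le) (lt_succ μ)
    have := Cardinal.ord_lt_ord.2 h
    rwa [Cardinal.ord_zero] at this
  -- a point where two sequences differ
  have hd : ∀ i i' : Ordinal.{u}, ∃ a < α, i < (succ μ).ord → i' < (succ μ).ord → i ≠ i' →
      ∀ γ, a < γ → rst (z i) γ ≠ rst (z i') γ := by
    intro i i'
    by_cases h : i < (succ μ).ord ∧ i' < (succ μ).ord ∧ i ≠ i'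
    · obtain ⟨h1, h2, h3⟩ := h
      have h4 : z i ≠ z i' := fun he => h3 (hinj i h1 i' h2 he)
      have h5 : ∃ x, ¬ (x ∈ z i ↔ x ∈ z i') := by
        by_contra hno
        push Not at hno
        exact h4 (ZFSet.ext fun x => hno x)
      obtain ⟨x, hx⟩ := h5
      have h6 : ∃ a < α, ∃ y, x = ZFSet.pair a.toZFSet y := by
        by_cases hxi : x ∈ z i
        · exact (hLB _ (hz i h1)).1 x hxi
        · have : x ∈ z i' := by
            by_contra hx'
            exact hx ⟨fun h => absurd h hxi, fun h => absurd h hx'⟩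
          exact (hLB _ (hz i' h2)).1 x this
      obtain ⟨a, ha, y, hxy⟩ := h6
      refine ⟨a, ha, fun _ _ _ γ hγ he => hx ?_⟩
      have e1 : x ∈ rst (z i) γ ↔ x ∈ z i := by
        rw [mem_rst]; exact ⟨fun h => h.1, fun h => ⟨h, a, hγ, y, hxy⟩⟩
      have e2 : x ∈ rst (z i') γ ↔ x ∈ z i' := by
        rw [mem_rst]; exact ⟨fun h => h.1, fun h => ⟨h, a, hγ, y, hxy⟩⟩
      rw [← e1, ← e2, he]
    · exact ⟨0, hlim.bot_lt, fun h1 h2 h3 => absurd ⟨h1, h2, h3⟩ h⟩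
  choose a ha1 ha2 using hd
  have hb : ∀ i : Ordinal.{u}, ∃ s < α, ∀ i' < (succ μ).ord, a i i' ≤ s := fun i =>
    Pool.Agent.H3.HD.exists_bound (ρ := α) (τ := (succ μ).ord) hτ (a i) fun i' _ => ha1 i i'
  choose s hs1 hs2 using hb
  obtain ⟨t, ht1, ht2⟩ := Pool.Agent.H3.HD.exists_bound (ρ := α) (τ := (succ μ).ord) hτ s
    fun i _ => hs1 i
  -- the good point
  have hn1 := All.va w0 α hα (succ μ).ord hτ (fun i => {γ | i < (succ μ).ord ∧ γ ∈ E en c₀ ∧
    cd en μ (z 0) γ ≠ cd en μ (z i) γ}) (fun i hi hP => heq _ (hz 0 h0) _ (hz i hi)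
      (hP.mono fun b _ hb _ => hb.2))
  have hn2 : ¬ Pos w0 α (Iio (succ t)) := All.vb w0 α (succ t) hlim (hlim.succ_lt ht1)
  obtain ⟨γ, hγ, -, hγ1, -⟩ := pos_diff All.va hα hpos (null_union All.va hα hn1 hn2) univ
    ⟨fun b hb => ⟨succ b, hlim.succ_lt hb, lt_succ b, Set.mem_univ _⟩,
      fun _ _ _ _ => Set.mem_univ _⟩
  obtain ⟨hγE, hγn⟩ := hγ1
  have hγt : t < γ := by
    by_contra hle
    exact hγn (Or.inr (lt_succ_iff.2 (not_lt.1 hle)))
  have hγc : ∀ i < (succ μ).ord, cd en μ (z 0) γ = cd en μ (z i) γ := by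
    intro i hi
    by_contra hne
    exact hγn (Or.inl ⟨i, hi, hi, hγE, hne⟩)
  have hspec : ∀ i < (succ μ).ord, Sz μ (en (cd en μ (z i) γ)) ∧
      rst (z i) γ ∈ en (cd en μ (z i) γ) := by
    intro i hi
    obtain ⟨W, hW, hWs, hWm⟩ := (hLB _ (hz i hi)).2 γ hγ
    obtain ⟨c, rfl⟩ := (hen.od _).1 hW
    exact csInf_mem (s := {c | Sz μ (en c) ∧ rst (z i) γ ∈ en c}) ⟨c, hWs, hWm⟩
  have hS := (hspec 0 h0).1
  rw [sz_iff] at hS
  have hmem : ∀ i < (succ μ).ord, rst (z i) γ ∈ en (cd en μ (z 0) γ) := by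
    intro i hi
    rw [hγc i hi]
    exact (hspec i hi).2
  have h2 : #(Iio (succ μ).ord) = Cardinal.lift.{u + 1} (succ μ) := by
    rw [Cardinal.mk_Iio_ordinal, Cardinal.card_ord]
  have h3 : #(Iio (succ μ).ord) ≤ #{x : ZFSet.{u} // x ∈ en (cd en μ (z 0) γ)} := by
    refine Cardinal.mk_le_of_injective (f := fun i => ⟨rst (z i.1) γ, hmem i.1 i.2⟩) ?_
    intro i i' he
    have he' : rst (z i.1) γ = rst (z i'.1) γ := congrArg Subtype.val he
    by_contra hne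
    have hne' : i.1 ≠ i'.1 := fun h => hne (Subtype.ext h)
    refine ha2 i.1 i'.1 i.2 i'.2 hne' γ ?_ he'
    exact ((hs2 i.1 i'.1 i'.2).trans (ht2 i.1 i.2)).trans_lt hγt
  rw [h2] at h3
  have h4 := h3.trans hS
  rw [Cardinal.lift_le] at h4
  exact absurd (lt_succ μ) (not_lt.2 h4)

end Pool.Agent.H45.NF
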