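import Pool.Agent.H45.NF.B1
import Pool.Agent.H45.NF.CL
import Pool.Agent.H45.NF.DL
import Pool.Agent.H45.NF.NN
import Pool.Agent.H45.NF.NW
import Pool.Agent.H45.NF.PA
import Pool.Agent.H45.NF.PB
import Pool.Agent.H45.NF.ZS
import Pool.Agent.H54.NF.GE
import Pool.Agent.H54.NF.RG2
import Pool.Agent.H54.NF.SC
import Pool.Agent.H65.NF.FD
import Pool.Agent.H65.NF.NF2
import Pool.Agent.H65.NF.SK
import Pool.Agent.H65.NF.SX
import Pool.Agent.H7.HD9.GR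
import Pool.Agent.H81.HD9.LW
import Pool.Agent.H81.HD9.RW

/-!
# Assembly: no new sequences
-/

open Ordinal Cardinal Order Set
open scoped ZFSet

universe u

namespace Pool.Agent.H45.NF.Asm

open _root_.HD HD.NF

theorem fd : HD.NF.T_FD.{u} := Pool.Agent.H65.NF.pf_fd
theorem sd : HD.NF.T_SD.{u} := Pool.Agent.H45.NF.pf_sd
theorem sc : HD.NF.T_SC.{u} := Pool.Agent.H54.NF.SC.pf_SC sd
theorem sk : T_SK.{u} := Pool.Agent.H65.NF.pf_sk sd sc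
theorem sx : T_SX.{u} := Pool.Agent.H65.NF.pf_sx fd
theorem dl : T_DL.{u} := Pool.Agent.H45.NF.pf_dl sd sk sx
theorem nw : T_NW.{u} := Pool.Agent.H45.NF.pf_nw dl pf_cl pf_dw pf_zs
theorem nn : T_NN.{u} := pf_nn nw pf_b1 (pf_pb pf_pa)
theorem rg2 : T_RG2.{u} := Pool.Agent.H54.NF.RG2.pf_RG2
theorem gr : Pool.Agent.H7.HD9.T_GR.{u} :=
  Pool.Agent.H7.HD9.gr Pool.Agent.H54.NF.GE.X (Pool.Agent.H81.HD9.RW.X Pool.Agent.H81.HD9.LW.X)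

theorem nf1 : T_NF1.{u} := by
  intro δ hδ
  by_cases hA : CaseA δ
  · exact Or.inl hA
  obtain ⟨E, hE⟩ := asm_good All.xa All.xb All.yl hδ hA
  have h0 : 0 < δ := by
    rw [hE.1]
    have := Cardinal.ord_lt_ord.2 hE.2.2.2.1
    exact lt_of_le_of_lt bot_le this
  obtain ⟨D, hDδ, -, hD, hW⟩ := gr δ hδ hA 0 h0
  refine Or.inr ⟨D.ord, hDδ, fun θ hθ => ?_⟩
  have hθ' : D < θ.cof := Cardinal.ord_lt_ord.1 hθ
  obtain ⟨en, hen⟩ := All.en.{u}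
  obtain ⟨W, hW⟩ := hW θ hθ'.le
  refine nn en D θ ⟨hen, hD.2.2.1, hθ', fun M hM hMD X hX hXp => ?_, ?_⟩
  · exact All.hb2 en hen D M θ hD.1 hD.2.1 hD.2.2.1 hM hMD hθ'
      (All.ha _ _ _ (hD.2.2.2 M hM hMD θ hθ'.le)) X hX hXp
  · exact rg2 D θ W hD.1 hD.2.2.1 hθ' hW

theorem nf2 : T_NF2.{u} := Pool.Agent.H65.NF.pf_nf2 nn

end Pool.Agent.H45.NF.Asm
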