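import Pool.Agent.H45.NF.CL

/-!
# B1. `Bl 1` is ordinal definability
-/

open Ordinal Cardinal Order Set
open scoped ZFSet

universe u

namespace Pool.Agent.H45.NF

open _root_.HD HD.NF

theorem pf_b1 : T_B1.{u} := by
  intro x
  constructor
  · rintro ⟨Z, hZ, ⟨e, he⟩, hx⟩
    have h1 : ∀ y ∈ Z, y = x := by
      intro y hy
      obtain ⟨a, ha, h2⟩ := he y hy
      obtain ⟨b, hb, h3⟩ := he x hx
      have e1 : (1 : Cardinal.{u}).ord = 1 := Cardinal.ord_one
      rw [e1] at ha hb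
      have ha' : a = 0 := Order.lt_one_iff.1 ha
      have hb' : b = 0 := Order.lt_one_iff.1 hb
      rw [h2, h3, ha', hb']
    refine OD.of_dz ?_
    refine (DZ.od (R := fun b v => v 0 ∈ b) hZ (DZ.mem 1 0)).congr fun v => ?_
    exact ⟨fun h => by rw [h]; exact hx, fun h => h1 _ h⟩
  · intro hx
    refine ⟨{x, x}, ?_, ⟨fun _ => x, fun y hy => ⟨0, ?_, ?_⟩⟩, by simp⟩
    · refine OD.of_dz ?_
      exact DZ.od (R := fun a v => v 0 = {a, a}) hx (loc_upair 1 0 0).dz
    · rw [Cardinal.ord_one]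
      exact zero_lt_one
    · simpa using hy

end Pool.Agent.H45.NF
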