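import Pool.Agent.H45.NF.Lib

/-!
# SD. Definability of splitting sets and of the equivalence
-/

open Ordinal Cardinal Order Set
open scoped ZFSet

universe u

namespace Pool.Agent.H45.NF

open _root_.HD HD.NF

/-- positivity with constant cofinality -/
theorem dz_posw {P : ZFSet.{u} → (ℕ → ZFSet.{u}) → Prop} (a : Ordinal.{u}) (j : ℕ)
    (hP : DZ fun v => P (v 0) (fun n => v (n + 1))) :
    DZ fun v => (v j).IsOrdinal ∧ Pos a (v j).rank {b | P b.toZFSet v} := by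
  have h1 := dz_pos (P := fun z v => P z (fun n => v (n + 1))) 0 (j + 1) (by
    refine (hP.ren (fun n => if n = 0 then 0 else n + 1)).congr fun v => ?_
    have e : (fun n => v (n + 1 + 1)) = fun n => v (if n + 1 = 0 then 0 else n + 1 + 1) := by
      funext n; simp
    rw [e]
    rfl)
  refine (DZ.od (R := fun x v => x.IsOrdinal ∧ (v j).IsOrdinal ∧
    Pos x.rank (v j).rank {b | P b.toZFSet v}) (OD.ordinal a) h1).congr fun v => ?_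
  rw [rank_toZFSet]
  exact ⟨fun h => ⟨ZFSet.isOrdinal_toZFSet _, h⟩, fun h => h.2⟩

variable {en : Ordinal.{u} → ZFSet.{u}}

theorem od_en (h : EN en) (c : Ordinal.{u}) : OD (en c) := (h.od _).2 ⟨c, rfl⟩

theorem dz_Spl (h : EN en) (c₀ : Ordinal.{u}) (i j : ℕ) :
    DZ fun v => (v j).IsOrdinal ∧ Spl en c₀ (v i) (v j).rank := by
  have h0 : ∀ k : ℕ, DZ.{u} fun v => v k ∈ en c₀ := fun k =>
    DZ.od (R := fun x v => v k ∈ x) (od_en h c₀) (DZ.mem (k + 1) 0)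
  have h1 := dz_posw (P := fun z v => z ∈ en c₀ ∧ z ∈ v i) w0 j ((h0 0).and (DZ.mem 0 (i + 1)))
  have h2 := dz_posw (P := fun z v => z ∈ en c₀ ∧ z ∉ v i) w0 j
    ((h0 0).and (DZ.mem 0 (i + 1)).not)
  refine (h1.and h2).congr fun v => ?_
  constructor
  · rintro ⟨h1, h2, h3⟩
    exact ⟨⟨h1, h2⟩, h1, h3⟩
  · rintro ⟨⟨h1, h2⟩, -, h3⟩
    exact ⟨h1, h2, h3⟩

theorem dz_Fa (h : EN en) (μ : Cardinal.{u}) (c₀ : Ordinal.{u}) (i j : ℕ) :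
    DZ fun v => (v i).IsOrdinal ∧ (v j).IsOrdinal ∧ Fa en μ c₀ (v i).rank (v j).rank := by
  refine (dz_en' h (R := fun z v => Sz μ z ∧ ∃ x ∈ z, ((v i).IsOrdinal ∧
    Spl en c₀ x (v i).rank)) j ((dz_Sz μ 0).and (DZ.exMem 0
      (dz_Spl h c₀ 0 (i + 2)))) |>.and (DZ.ord i)).congr fun v => ?_
  constructor
  · rintro ⟨h1, h2, h3, x, hx, h4⟩
    exact ⟨⟨h2, h3, x, hx, h1, h4⟩, h1⟩
  · rintro ⟨⟨h2, h3, x, hx, h1, h4⟩, -⟩
    exact ⟨h1, h2, h3, x, hx, h4⟩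

theorem dz_mn (h : EN en) (μ : Cardinal.{u}) (c₀ : Ordinal.{u}) (i j : ℕ) :
    DZ fun v => (v i).IsOrdinal ∧ (v j).IsOrdinal ∧ (v j).rank = mn en μ c₀ (v i).rank := by
  have h1 := dz_sInf (S := fun c v => (v 0).IsOrdinal ∧ c.IsOrdinal ∧
    Fa en μ c₀ (v 0).rank c.rank) (dz_Fa h μ c₀ 1 0)
  refine ((DZ.ord i).and (h1.ren fun n => if n = 0 then j else i)).congr fun v => ?_
  refine and_congr_right fun hi => ?_
  show _ ↔ (v j).IsOrdinal ∧ (v j).rank = sInf {c : Ordinal.{u} | (v i).IsOrdinal ∧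
    c.toZFSet.IsOrdinal ∧ Fa en μ c₀ (v i).rank c.toZFSet.rank}
  have : {c : Ordinal.{u} | (v i).IsOrdinal ∧ c.toZFSet.IsOrdinal ∧
      Fa en μ c₀ (v i).rank c.toZFSet.rank} = {c | Fa en μ c₀ (v i).rank c} := by
    ext c
    simp only [Set.mem_ofPred_eq, rank_toZFSet]
    exact ⟨fun h => h.2.2, fun h => ⟨hi, ZFSet.isOrdinal_toZFSet _, h⟩⟩
  rw [this]
  rfl

theorem dz_Sp (h : EN en) (μ : Cardinal.{u}) (c₀ : Ordinal.{u}) :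
    DO.{u} fun w => Sp en μ c₀ (w 0) (w 1) (w 2) := by
  have h1 : DZ.{u} fun v => ∃ c : ZFSet.{u}, ((v 0).IsOrdinal ∧ c.IsOrdinal ∧
      c.rank = mn en μ c₀ (v 0).rank) ∧ (c.IsOrdinal ∧ ∃ x ∈ en c.rank,
        ((v 0).IsOrdinal ∧ Spl en c₀ x (v 0).rank) ∧ ¬ (v 1 ∈ x ↔ v 2 ∈ x)) := by
    refine DZ.ex (DZ.and (dz_mn h μ c₀ 1 0) ?_)
    exact dz_en' h (R := fun z v => ∃ x ∈ z,
      ((v 1).IsOrdinal ∧ Spl en c₀ x (v 1).rank) ∧ ¬ (v 2 ∈ x ↔ v 3 ∈ x)) 0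
      (DZ.exMem 0 ((dz_Spl h c₀ 0 3).and ((DZ.mem 4 0).iff (DZ.mem 5 0)).not))
  refine h1.do.congr fun w => ?_
  show Sp en μ c₀ (w 0) (w 1) (w 2) ↔ ∃ c : ZFSet.{u}, (((w 0).toZFSet).IsOrdinal ∧ c.IsOrdinal ∧
      c.rank = mn en μ c₀ ((w 0).toZFSet).rank) ∧ (c.IsOrdinal ∧ ∃ x ∈ en c.rank,
        (((w 0).toZFSet).IsOrdinal ∧ Spl en c₀ x ((w 0).toZFSet).rank) ∧
          ¬ ((w 1).toZFSet ∈ x ↔ (w 2).toZFSet ∈ x))
  simp only [rank_toZFSet]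
  constructor
  · rintro ⟨x, hx, h1, h2⟩
    exact ⟨(mn en μ c₀ (w 0)).toZFSet, ⟨ZFSet.isOrdinal_toZFSet _, ZFSet.isOrdinal_toZFSet _,
      by rw [rank_toZFSet]⟩, ZFSet.isOrdinal_toZFSet _, x, by rwa [rank_toZFSet],
      ⟨ZFSet.isOrdinal_toZFSet _, h1⟩, h2⟩
  · rintro ⟨c, ⟨-, -, h1⟩, -, x, hx, ⟨-, h2⟩, h3⟩
    rw [h1] at hx
    exact ⟨x, hx, h2, h3⟩

theorem pf_sd : T_SD.{u} := by
  intro en h μ c₀
  have hSp := dz_Sp h μ c₀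
  refine ⟨?_, hSp, fun M α c' => ?_⟩
  · have h1 : DO.{u} fun w => ∃ c, Fa en μ c₀ (w 0) c := by
      refine DO.ex (R := fun c w => Fa en μ c₀ (w 0) c) ?_
      refine (dz_Fa h μ c₀ 1 0).do.congr fun w => ?_
      show Fa en μ c₀ (w 1) (w 0) ↔ ((w 1).toZFSet).IsOrdinal ∧ ((w 0).toZFSet).IsOrdinal ∧
        Fa en μ c₀ ((w 1).toZFSet).rank ((w 0).toZFSet).rank
      rw [rank_toZFSet, rank_toZFSet]
      exact ⟨fun h => ⟨ZFSet.isOrdinal_toZFSet _, ZFSet.isOrdinal_toZFSet _, h⟩, fun h => h.2.2⟩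
    exact h1
  · have hE : DS (E en c') := (od_en h c').ds
    have h2 : DO.{u} fun w => Pos (w 0) (w 1) {γ | γ ∈ E en c' ∧ Sp en μ c₀ γ (w 2) (w 3)} := by
      refine All.da 0 1 (fun γ w => γ ∈ E en c' ∧ Sp en μ c₀ γ (w 2) (w 3)) ?_
      exact (DO.s1 (X := fun γ => γ ∈ E en c') hE 0).and
        (DO.s3 (X := fun a b c => Sp en μ c₀ a b c) hSp 0 3 4)
    have h3 : DO.{u} fun w => Pos M.ord α {γ | γ ∈ E en c' ∧ Sp en μ c₀ γ (w 0) (w 1)} :=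
      DO.sub (R := fun a w => Pos a α {γ | γ ∈ E en c' ∧ Sp en μ c₀ γ (w 0) (w 1)}) M.ord
        (DO.sub (R := fun b w => Pos (w 0) b {γ | γ ∈ E en c' ∧ Sp en μ c₀ γ (w 1) (w 2)}) α
          ((h2.ren fun n => if n = 0 then 1 else if n = 1 then 0 else n).congr fun w => Iff.rfl))
    exact h3.not

end Pool.Agent.H45.NF
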