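import Pool.Agent.H7.HD.All8

/-!
# MP_e37c09_lc: sequences all of whose proper initial segments are ordinal definable.
Definitions and targets
-/

open Ordinal Cardinal Order Set
open scoped ZFSet

universe u

namespace HD.NF

/-! ## Statement-level definitions -/

/-- the part of the sequence `f` below `ξ` -/
noncomputable def rst (f : ZFSet.{u}) (ξ : Ordinal.{u}) : ZFSet.{u} :=
  ZFSet.sep (fun z => ∃ a < ξ, ∃ y, z = ZFSet.pair a.toZFSet y) f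

/-- `Z` has at most `μ` elements. -/
def Sz (μ : Cardinal.{u}) (Z : ZFSet.{u}) : Prop :=
  ∃ e : Ordinal.{u} → ZFSet.{u}, ∀ x ∈ Z, ∃ a < μ.ord, x = e a

/-- `x` is an element of an ordinal definable set which has at most `μ` elements. -/
def Bl (μ : Cardinal.{u}) (x : ZFSet.{u}) : Prop := ∃ Z, OD Z ∧ Sz μ Z ∧ x ∈ Z

/-- `x` is definable from `p` and ordinals: for some `α` it is the only element of `V_ α` with a
first-order property of the structure `(V_ α, ∈)` with parameters `p` and ordinals below `α`. -/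
def ODp (p x : ZFSet.{u}) : Prop :=
  ∃ (α : Ordinal.{u}) (φ : Fml) (q : ℕ → Ordinal.{u}), (∀ n, q n < α) ∧ p ∈ V_ α ∧ x ∈ V_ α ∧
    ∀ y ∈ V_ α, (Sat (· ∈ V_ α) φ (cons y (cons p fun n => (q n).toZFSet)) ↔ y = x)

/-- There are no new sequences of length `θ`: a sequence `f` of length `θ` all of whose proper
initial segments are elements of ordinal definable sets with at most `μ` elements is an element of
such a set, and a sequence of length `θ` all of whose proper initial segments are definable from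
`p` and ordinals is definable from `p` and ordinals. -/
def NoNew (θ : Ordinal.{u}) : Prop := ∀ f y, ZFSet.IsFunc θ.toZFSet y f →
  ((∀ ξ < θ, HOD (rst f ξ)) → HOD f) ∧
  ∀ μ : Cardinal.{u}, succ (2 ^ μ) < θ.cof → ((∀ ξ < θ, Bl μ (rst f ξ)) → Bl μ f) ∧
    ∀ p, Sz μ (V_ (p.rank + 1)) → (∀ ξ < θ, ODp p (rst f ξ)) → ODp p f

/-! ## The situation at `α` -/

/-- `ω` as the cofinality of the points -/
noncomputable def w0 : Ordinal.{u} := (ℵ₀ : Cardinal.{u}).ord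

/-- Two sets which are `ω`-positive at `α` are both `ω`-positive at the points of an `M`-positive
set, for a regular uncountable `M < D`. -/
def Rf2 (D : Cardinal.{u}) (α : Ordinal.{u}) : Prop := ∀ A B : Set Ordinal.{u},
  Pos w0 α A → Pos w0 α B → ∃ M : Cardinal.{u}, M.IsRegular ∧ ℵ₀ < M ∧ M < D ∧
    Pos M.ord α {ν | Pos w0 ν A ∧ Pos w0 ν B}

/-- `α` is of cofinality greater than `D`, there are atoms at `α`, and `α` has the reflection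
property `Rf2`. -/
structure Sit (en : Ordinal.{u} → ZFSet.{u}) (D : Cardinal.{u}) (α : Ordinal.{u}) : Prop where
  hen : EN en
  unc : ℵ₀ < D
  dlt : D < α.cof
  ats : ∀ M : Cardinal.{u}, M.IsRegular → M < D → ∀ X : Set Ordinal.{u}, DS X → Pos M.ord α X →
    ∃ c, E en c ⊆ X ∧ Atom en M.ord α c
  rf : Rf2 D α

/-! ## The decision lemma -/

/-- FD. Fodor's theorem in two variables. -/
def T_FD : Prop := ∀ (M N : Cardinal.{u}) (α : Ordinal.{u}) (X S : Set Ordinal.{u})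
  (T : Ordinal.{u} → Ordinal.{u} → Prop), M.IsRegular → N.IsRegular → ℵ₀ < M → ℵ₀ < α.cof →
  Pos M.ord α X → (∀ γ ∈ X, γ < α → Cf M.ord γ → Pos N.ord γ {ξ | ξ ∈ S ∧ T γ ξ}) →
    Pos N.ord α {ξ | ξ ∈ S ∧ Pos M.ord α {γ | γ ∈ X ∧ T γ ξ}}

/-- the set `x` splits the set with code `c₀` at `γ` -/
def Spl (en : Ordinal.{u} → ZFSet.{u}) (c₀ : Ordinal.{u}) (x : ZFSet.{u}) (γ : Ordinal.{u}) :
    Prop :=
  Pos w0 γ {ξ | ξ ∈ E en c₀ ∧ ξ.toZFSet ∈ x} ∧ Pos w0 γ {ξ | ξ ∈ E en c₀ ∧ ξ.toZFSet ∉ x}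

/-- `c` is the code of a set with at most `μ` elements, one of which splits at `γ` -/
def Fa (en : Ordinal.{u} → ZFSet.{u}) (μ : Cardinal.{u}) (c₀ γ c : Ordinal.{u}) : Prop :=
  Sz μ (en c) ∧ ∃ x ∈ en c, Spl en c₀ x γ

/-- the least such code -/
noncomputable def mn (en : Ordinal.{u} → ZFSet.{u}) (μ : Cardinal.{u}) (c₀ γ : Ordinal.{u}) :
    Ordinal.{u} := sInf {c | Fa en μ c₀ γ c}

/-- `ξ` and `ξ'` are separated by a set which splits at `γ` -/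
def Sp (en : Ordinal.{u} → ZFSet.{u}) (μ : Cardinal.{u}) (c₀ γ ξ ξ' : Ordinal.{u}) : Prop :=
  ∃ x ∈ en (mn en μ c₀ γ), Spl en c₀ x γ ∧ ¬ (ξ.toZFSet ∈ x ↔ ξ'.toZFSet ∈ x)

/-- `ξ` and `ξ'` are equivalent: they are not separated at almost all points of `E en c'` -/
def Eqv (en : Ordinal.{u} → ZFSet.{u}) (μ : Cardinal.{u}) (c₀ : Ordinal.{u}) (M : Cardinal.{u})
    (α c' ξ ξ' : Ordinal.{u}) : Prop := ¬ Pos M.ord α {γ | γ ∈ E en c' ∧ Sp en μ c₀ γ ξ ξ'}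

/-- SD. Definability. -/
def T_SD : Prop := ∀ en : Ordinal.{u} → ZFSet.{u}, EN en → ∀ (μ : Cardinal.{u}) (c₀ : Ordinal.{u}),
  DS {γ | ∃ c, Fa en μ c₀ γ c} ∧ (DO fun w => Sp en μ c₀ (w 0) (w 1) (w 2)) ∧
  ∀ (M : Cardinal.{u}) (α c' : Ordinal.{u}), DO fun w => Eqv en μ c₀ M α c' (w 0) (w 1)

/-- The situation of the proof by contradiction. -/
structure Spt (en : Ordinal.{u} → ZFSet.{u}) (M μ : Cardinal.{u}) (α c₀ c' : Ordinal.{u}) :
    Prop where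
  hen : EN en
  mreg : M.IsRegular
  munc : ℵ₀ < M
  unc : ℵ₀ < α.cof
  hμ : succ (2 ^ μ) < α.cof
  ac : Atom en w0 α c₀
  ac' : Atom en M.ord α c'
  hf : ∀ γ ∈ E en c', ∃ c, Fa en μ c₀ γ c

/-- SC. There are at most `2 ^ μ` classes. -/
def T_SC : Prop := ∀ en M μ α c₀ c', Spt.{u} en M μ α c₀ c' → ∀ R : Set Ordinal.{u},
  (∀ ξ ∈ R, ∀ ξ' ∈ R, ξ ≠ ξ' → ¬ Eqv en μ c₀ M α c' ξ ξ') → Few (succ ((2 : Cardinal.{u}) ^ μ)).ord R

/-- SK. One of the classes is large. -/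
def T_SK : Prop := ∀ en M μ α c₀ c', Spt.{u} en M μ α c₀ c' →
  ∃ r, ¬ Pos w0 α {ξ | ξ ∈ E en c₀ ∧ ¬ Eqv en μ c₀ M α c' ξ r}

/-- SX. Contradiction. -/
def T_SX : Prop := ∀ en M μ α c₀ c', Spt.{u} en M μ α c₀ c' → ∀ r,
  ¬ Pos w0 α {ξ | ξ ∈ E en c₀ ∧ ¬ Eqv en μ c₀ M α c' ξ r} → False

/-- DL. The decision lemma. -/
def T_DL : Prop := ∀ en D α, Sit.{u} en D α → ∀ c₀, Atom en w0 α c₀ → ∀ μ : Cardinal.{u},
  succ (2 ^ μ) < α.cof → ∀ A : Set Ordinal.{u}, (∀ β < α, Bl μ (os β A)) →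
    ¬ (Pos w0 α {ξ | ξ ∈ E en c₀ ∧ ξ ∈ A} ∧ Pos w0 α {ξ | ξ ∈ E en c₀ ∧ ξ ∉ A})

/-! ## The order of the sequences -/

/-- `f` is a set of pairs `(a, y)` with `a < α`, and its proper initial segments are elements of
ordinal definable sets with at most `μ` elements -/
def LB (μ : Cardinal.{u}) (α : Ordinal.{u}) (f : ZFSet.{u}) : Prop :=
  (∀ z ∈ f, ∃ a < α, ∃ y, z = ZFSet.pair a.toZFSet y) ∧ ∀ ξ < α, Bl μ (rst f ξ)

/-- the least code of such a set for the part below `γ` -/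
noncomputable def cd (en : Ordinal.{u} → ZFSet.{u}) (μ : Cardinal.{u}) (f : ZFSet.{u})
    (γ : Ordinal.{u}) : Ordinal.{u} := sInf {c | Sz μ (en c) ∧ rst f γ ∈ en c}

/-- `f` is before `g` -/
def Lw (en : Ordinal.{u} → ZFSet.{u}) (μ : Cardinal.{u}) (α c₀ : Ordinal.{u}) (f g : ZFSet.{u}) :
    Prop := ¬ Pos w0 α {γ | γ ∈ E en c₀ ∧ ¬ cd en μ f γ < cd en μ g γ}

/-- CL. The comparison of two sequences. -/
def T_CL : Prop := ∀ en : Ordinal.{u} → ZFSet.{u}, EN en → ∀ (μ : Cardinal.{u}) (α : Ordinal.{u})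
  (f g : ZFSet.{u}), LB μ α f → LB μ α g →
    ∀ β < α, Bl (μ * μ) (os β {γ | cd en μ f γ < cd en μ g γ})

/-- DW. Definability. -/
def T_DW : Prop := ∀ en : Ordinal.{u} → ZFSet.{u}, EN en → ∀ (μ : Cardinal.{u})
  (α c₀ β : Ordinal.{u}), ∃ Z, OD Z ∧ ∀ x, x ∈ Z ↔ x ∈ V_ β ∧ LB μ α x ∧ ¬ Bl μ x ∧
    ∀ g, LB μ α g → ¬ Bl μ g → ¬ Lw en μ α c₀ g x

/-- ZS. The size of a set of equivalent sequences. -/
def T_ZS : Prop := ∀ en : Ordinal.{u} → ZFSet.{u}, EN en → ∀ (μ : Cardinal.{u}) (α c₀ : Ordinal.{u})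
  (Z : ZFSet.{u}), succ μ < α.cof → ℵ₀ < α.cof → Pos w0 α (E en c₀) → (∀ f ∈ Z, LB μ α f) →
  (∀ f ∈ Z, ∀ g ∈ Z, ¬ Pos w0 α {γ | γ ∈ E en c₀ ∧ cd en μ f γ ≠ cd en μ g γ}) → Sz μ Z

/-- NW. There are no new sequences. -/
def T_NW : Prop := ∀ en D α, Sit.{u} en D α → ∀ μ : Cardinal.{u}, succ (2 ^ μ) < α.cof →
  ∀ f, LB μ α f → Bl μ f

/-! ## Sequences definable from a set -/

/-- B1. -/
def T_B1 : Prop := ∀ x : ZFSet.{u}, Bl 1 x ↔ OD x

/-- PA. -/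
def T_PA : Prop := ∀ p x : ZFSet.{u}, ODp p x ↔ ∃ R, OD R ∧ ∀ z, ZFSet.pair p z ∈ R ↔ z = x

/-- PB. -/
def T_PB : Prop := ∀ (μ : Cardinal.{u}) (θ : Ordinal.{u}), ℵ₀ < θ.cof → μ < θ.cof →
  ∀ f y p, ZFSet.IsFunc θ.toZFSet y f → Sz μ (V_ (p.rank + 1)) → (∀ ξ < θ, ODp p (rst f ξ)) →
    (∀ ξ < θ, Bl μ (rst f ξ)) ∧ (Bl μ f → ODp p f)

/-- NN. -/
def T_NN : Prop := ∀ en D θ, Sit.{u} en D θ → NoNew θ

/-! ## The two main cases -/

/-- the reflection property above `D` -/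
def RfN (D : Cardinal.{u}) : Prop := ∀ α : Ordinal.{u}, D < α.cof → Rf2 D α

/-- RG2. The reflection property from an ultrafilter. -/
def T_RG2 : Prop := ∀ (D : Cardinal.{u}) (α : Ordinal.{u}) (W : Ultrafilter Ordinal.{u}),
  D.IsRegular → ℵ₀ < D → D < α.cof → WN D α W → Rf2 D α

/-- RE. Extendible cardinals. -/
def T_RE : Prop := ∀ D : Cardinal.{u}, Extendible D.ord → RfN D

/-- `RfN` below `β` -/
def RfB (β δ : Ordinal.{u}) : Prop := ∀ α < β, δ < α.cof.ord → ∀ A B : Set Ordinal.{u},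
  Pos w0 α A → Pos w0 α B → ∃ μ < δ, ω < μ ∧ Cf μ μ ∧ Pos μ α {ν | Pos w0 ν A ∧ Pos w0 ν B}

/-- RL. -/
def T_RfL : Prop := Loc.{u} fun v => (v 0).IsOrdinal ∧ (v 1).IsOrdinal ∧
  RfB (v 0).rank (v 1).rank

/-- RR. Reflection. -/
def T_RfR : Prop := ∀ D : Cardinal.{u}, Extendible D.ord → GoodN D → RfN D → ∀ l < D.ord,
  ∃ D' : Cardinal.{u}, D' < D ∧ l < D'.ord ∧ GoodN D' ∧ RfN D'

/-- The first theorem. -/
def T_NF1 : Prop := ∀ δ : Ordinal.{u}, Extendible δ → CaseA δ ∨ ∃ δ₀ < δ, ∀ θ : Ordinal.{u},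
  δ₀ < θ.cof.ord → NoNew θ

/-- The second theorem. -/
def T_NF2 : Prop := ∀ D K₀ : Cardinal.{u}, StrComp D → D < K₀ → OmSM K₀ → ∀ θ : Ordinal.{u},
  K₀ < θ.cof → NoNew θ

end HD.NF
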